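import Mathlib
import Pool.Agent.TH444.ML.Done

/-!
# Malle's conjecture for the wreath products `C₂ ≀ (A ≀ S_m)`

`A` is any finite group and `m ≥ ((3 |A| + 2)!) ^ 3`; the group `H = A ≀ S_m` acts on itself by
multiplication, and `G = C₂ ≀ H` acts on `H × {0, 1}`. Over every number field `K` the number of
`G`-extensions of `K` with discriminant of norm at most `X` is asymptotic to `c X`, and `a(G) = 1`.
-/

set_option autoImplicit false

open Filter
open Pool.Agent.TH444.TW (Cls)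
open Pool.Agent.H391R2 (Wr)

namespace Pool.Agent.Results.MP_af4c59_nt.WreathOfOrderTwo

/-- `G ≤ S_n` is, up to a bijection `f` of `{1, ..., n}` with `H × {0, 1}`, the wreath product
`C₂ ≀ H`: it consists of all permutations `π` for which there is `h ∈ H` such that `π` maps the block
`{x} × {0, 1}` to the block `{h x} × {0, 1}`, for all `x ∈ H`. -/
def IsC2Wreath (H : Type) [Group H] {n : ℕ} (G : Subgroup (Equiv.Perm (Fin n))) : Prop :=
  ∃ f : Fin n ≃ H × Bool, ∀ π : Equiv.Perm (Fin n), π ∈ G ↔ ∃ h : H, ∀ i, (f (π i)).1 = h * (f i).1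

/-- The index of a permutation: `n` minus the number of its cycles, fixed points included. -/
def ind {n : ℕ} (g : Equiv.Perm (Fin n)) : ℕ := g.cycleType.sum - Multiset.card g.cycleType

/-- `a(G) = 1 / min ind(g)`, the minimum over the `g ≠ 1` in `G`. -/
noncomputable def a {n : ℕ} (G : Subgroup (Equiv.Perm (Fin n))) : ℝ :=
  1 / (sInf {j : ℕ | ∃ g ∈ G, g ≠ 1 ∧ j = ind g} : ℕ)

/-- `N_{n,K}(X; G)`: the number of fields `L` between `K` and its algebraic closure, of degree `n`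
over `K`, whose Galois group, acting on the embeddings, is `G` (up to numbering), and whose relative
discriminant has norm at most `X` (that is, `|d_L| ≤ X |d_K| ^ n`). -/
noncomputable def N (K : Type) [Field K] [NumberField K] (n : ℕ)
    (G : Subgroup (Equiv.Perm (Fin n))) (X : ℝ) : ℕ :=
  Set.ncard {L : IntermediateField K (AlgebraicClosure K) |
    Module.finrank K L = n ∧
    (∃ e : (L →ₐ[K] AlgebraicClosure K) ≃ Fin n, ∀ π : Equiv.Perm (Fin n),
      π ∈ G ↔ ∃ σ : AlgebraicClosure K ≃ₐ[K] AlgebraicClosure K,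
        ∀ φ : L →ₐ[K] AlgebraicClosure K, e (σ.toAlgHom.comp φ) = π (e φ)) ∧
    ∃ h : NumberField L,
      ((|@NumberField.discr L _ h| : ℤ) : ℝ) ≤ X * ((|NumberField.discr K| : ℤ) : ℝ) ^ n}

/-- Malle's conjecture for `(K, G)`: the asymptotic formula `N_{n,K}(X; G) ~ c X ^ a(G)` (so
`b(K, G) = 1`), all the counting sets being finite, and the inequalities of the weak form. -/
def Malle (K : Type) [Field K] [NumberField K] (n : ℕ) (G : Subgroup (Equiv.Perm (Fin n))) :
    Prop :=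
  (∃ c : ℝ, 0 < c ∧ Tendsto (fun X : ℝ => (N K n G X : ℝ) / X ^ a G) atTop (nhds c)) ∧
  (∃ c₁ : ℝ, 0 < c₁ ∧ ∃ X₀ : ℝ, ∀ X : ℝ, X₀ ≤ X → c₁ * X ^ a G ≤ N K n G X) ∧
  (∀ ε : ℝ, 0 < ε → ∃ c₂ : ℝ, 0 < c₂ ∧ ∃ X₀ : ℝ, ∀ X : ℝ, X₀ ≤ X →
    (N K n G X : ℝ) < c₂ * X ^ (a G + ε))

theorem a_eq {H : Type} [Group H] [Finite H] {n : ℕ} {G : Subgroup (Equiv.Perm (Fin n))}
    (hG : IsC2Wreath H G) : a G = 1 := by
  have h := Pool.Agent.TH444.ML.least_ind (H := H) hG
  have h2 : sInf {j : ℕ | ∃ g ∈ G, g ≠ 1 ∧ j = ind g} = 1 := h.csInf_eq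
  unfold a
  rw [h2]
  simp

theorem of_data (K : Type) [Field K] [NumberField K] (H : Type) [Group H] [Finite H]
    (h2 : 2 ≤ Nat.card H) (U : Subgroup H) (hU : U.normalCore = ⊥)
    (hc : 8 * U.index * (U.index + 1) ≤ Nat.card H)
    (hne : (Pool.Agent.TH444.ML.Gal K (AlgebraicClosure K) H).Nonempty) (n : ℕ)
    (G : Subgroup (Equiv.Perm (Fin n))) (hG : IsC2Wreath H G) : Malle K n G := by
  obtain ⟨-, c, hc0, hlim⟩ :=
    Pool.Agent.TH444.ML.asymp Pool.Agent.TH444.ML.rest K H h2 U hU hc hne G hG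
  have ha := a_eq hG
  unfold Malle
  rw [ha]
  have hlim' : Tendsto (fun X : ℝ => (N K n G X : ℝ) / X) atTop (nhds c) := hlim
  refine ⟨⟨c, hc0, by simpa using hlim'⟩, ⟨c / 2, by positivity, ?_⟩, ?_⟩
  · have h := (hlim'.eventually (lt_mem_nhds (by linarith : c / 2 < c))).and
      (eventually_gt_atTop (0 : ℝ))
    obtain ⟨X₀, hX₀⟩ := eventually_atTop.1 h
    refine ⟨X₀, fun X hX => ?_⟩
    obtain ⟨h3, h4⟩ := hX₀ X hX
    rw [lt_div_iff₀ h4] at h3
    rw [Real.rpow_one]
    exact h3.le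
  · intro ε hε
    refine ⟨2 * c, by positivity, ?_⟩
    have h := (hlim'.eventually (gt_mem_nhds (by linarith : c < 2 * c))).and
      (eventually_ge_atTop (1 : ℝ))
    obtain ⟨X₀, hX₀⟩ := eventually_atTop.1 h
    refine ⟨X₀, fun X hX => ?_⟩
    obtain ⟨h3, h4⟩ := hX₀ X hX
    have h5 : (0 : ℝ) < X := by linarith
    rw [div_lt_iff₀ h5] at h3
    refine h3.trans_le ?_
    apply mul_le_mul_of_nonneg_left _ (by positivity)
    calc X = X ^ (1 : ℝ) := (Real.rpow_one X).symm
      _ ≤ X ^ (1 + ε) := Real.rpow_le_rpow_of_exponent_le h4 (by linarith)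

end Pool.Agent.Results.MP_af4c59_nt.WreathOfOrderTwo

open Pool.Agent.Results.MP_af4c59_nt.WreathOfOrderTwo in
/-- Malle's conjecture holds for `C₂ ≀ (A ≀ S_m)` over every number field `K` (first part), and more
generally for `C₂ ≀ H` whenever `H` is the top of a finite tower of steps in the class `Cls K` over
a finite Galois extension `L/K` and `H` has a subgroup of index `u`, with trivial normal core,
`8 u (u + 1) ≤ |H|` (second part). In all cases `a(G) = 1`. -/
theorem Pool.Agent.Results.MP_af4c59_nt.WreathOfOrderTwo.result :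
    (∀ (A : Type) [Group A] [Finite A] (m : ℕ), ((3 * Nat.card A + 2).factorial) ^ 3 ≤ m →
      ∀ (n : ℕ) (G : Subgroup (Equiv.Perm (Fin n))), IsC2Wreath (Wr A m) G →
      ∀ (K : Type) [Field K] [NumberField K], Malle K n G) ∧
    (∀ (K L H : Type) [Field K] [NumberField K] [Field L] [Algebra K L] [FiniteDimensional K L]
      [IsGalois K L] [Group H] [Finite H] (p : H →* (L ≃ₐ[K] L)), Cls K p →
      ∀ U : Subgroup H, U.normalCore = ⊥ → 8 * U.index * (U.index + 1) ≤ Nat.card H →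
      ∀ (n : ℕ) (G : Subgroup (Equiv.Perm (Fin n))), IsC2Wreath H G → Malle K n G) ∧
    (∀ (H : Type) [Group H] [Finite H] (n : ℕ) (G : Subgroup (Equiv.Perm (Fin n))),
      IsC2Wreath H G → a G = 1) := by
  refine ⟨?_, ?_, ?_⟩
  · intro A _ _ m hm n G hG K _ _
    obtain ⟨h2, ⟨U, hU, hc⟩, hne⟩ := Pool.Agent.TH444.ML.wr_data K A m hm
    exact of_data K (Wr A m) h2 U hU hc hne n G hG
  · intro K L H _ _ _ _ _ _ _ _ p hp U hU hc n G hG
    have h1 : 1 ≤ U.index := Nat.one_le_iff_ne_zero.2 Subgroup.index_ne_zero_of_finite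
    have h2 : 2 ≤ Nat.card H := by nlinarith
    exact of_data K H h2 U hU hc
      (Pool.Agent.TH444.ML.gal_nonempty K (AlgebraicClosure K) L H p hp) n G hG
  · intro H _ _ n G hG
    exact a_eq hG
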